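import Mathlib

/-!
# Falik-Samorodnitsky inequality: elementary inequalities
-/

namespace Pool.Agent.W912.LP

/-- Two-term comparison used in the log-sum inequality. -/
theorem logsum_term {a b A B : ℝ} (ha : 0 ≤ a) (hb : 0 ≤ b) (hab : b = 0 → a = 0)
    (hA : 0 < A) (hB : 0 < B) :
    a * Real.log (A / B) + (a - b * (A / B)) ≤ a * Real.log (a / b) := by
  rcases eq_or_lt_of_le ha with h | h
  · rw [← h]
    have : 0 ≤ b * (A / B) := by positivity
    simp only [zero_mul, zero_add, zero_div]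
    linarith
  · have hb' : 0 < b := by
      rcases eq_or_lt_of_le hb with h' | h'
      · exact absurd (hab h'.symm) h.ne'
      · exact h'
    have h1 : Real.log ((b * A) / (a * B)) ≤ (b * A) / (a * B) - 1 :=
      Real.log_le_sub_one_of_pos (by positivity)
    have h2 : Real.log ((b * A) / (a * B)) = Real.log (A / B) - Real.log (a / b) := by
      rw [Real.log_div (by positivity) (by positivity), Real.log_mul (by positivity) (by positivity),
        Real.log_mul (by positivity) (by positivity), Real.log_div hA.ne' hB.ne',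
        Real.log_div h.ne' hb'.ne']
      ring
    rw [h2] at h1
    have h3 : a * (Real.log (A / B) - Real.log (a / b)) ≤ a * ((b * A) / (a * B) - 1) :=
      mul_le_mul_of_nonneg_left h1 h.le
    have h4 : a * ((b * A) / (a * B) - 1) = b * (A / B) - a := by
      field_simp
    linarith

/-- Log-sum inequality. -/
theorem logsum {κ : Type*} (s : Finset κ) (a b : κ → ℝ) (ha : ∀ k ∈ s, 0 ≤ a k)
    (hb : ∀ k ∈ s, 0 ≤ b k) (hab : ∀ k ∈ s, b k = 0 → a k = 0) :
    (∑ k ∈ s, a k) * Real.log ((∑ k ∈ s, a k) / ∑ k ∈ s, b k) ≤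
      ∑ k ∈ s, a k * Real.log (a k / b k) := by
  rcases eq_or_lt_of_le (Finset.sum_nonneg ha) with h | h
  · rw [← h, zero_mul]
    have h0 := (Finset.sum_eq_zero_iff_of_nonneg ha).1 h.symm
    refine le_of_eq (Finset.sum_eq_zero fun k hk => ?_).symm
    rw [h0 k hk, zero_mul]
  · have hB : 0 < ∑ k ∈ s, b k := by
      rcases eq_or_lt_of_le (Finset.sum_nonneg hb) with h' | h'
      · have h0 := (Finset.sum_eq_zero_iff_of_nonneg hb).1 h'.symm
        have : ∑ k ∈ s, a k = 0 := Finset.sum_eq_zero fun k hk => hab k hk (h0 k hk)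
        exact absurd this h.ne'
      · exact h'
    have key : ∑ k ∈ s, (a k * Real.log ((∑ k ∈ s, a k) / ∑ k ∈ s, b k) +
        (a k - b k * ((∑ k ∈ s, a k) / ∑ k ∈ s, b k))) ≤ ∑ k ∈ s, a k * Real.log (a k / b k) :=
      Finset.sum_le_sum fun k hk => logsum_term (ha k hk) (hb k hk) (hab k hk) h hB
    rw [Finset.sum_add_distrib, ← Finset.sum_mul, Finset.sum_sub_distrib, ← Finset.sum_mul,
      mul_div_cancel₀ _ hB.ne'] at key
    linarith

/-- Two-term log-sum inequality. -/
theorem logsum2 {a b a' b' : ℝ} (ha : 0 ≤ a) (hb : 0 ≤ b) (hab : b = 0 → a = 0)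
    (ha' : 0 ≤ a') (hb' : 0 ≤ b') (hab' : b' = 0 → a' = 0) :
    (a + a') * Real.log ((a + a') / (b + b')) ≤
      a * Real.log (a / b) + a' * Real.log (a' / b') := by
  have := logsum (Finset.univ : Finset Bool) (fun c => if c then a else a')
    (fun c => if c then b else b') (by intro k _; cases k <;> simpa)
    (by intro k _; cases k <;> simpa) (by intro k _; cases k <;> simpa)
  simpa using this

/-- `x² log x² - x² + 1` against `(x - 1)²`, scaled. -/
theorem theta_le {g m q : ℝ} (hm : m ≠ 0) (hq : 1 ≤ q) (hg : g ^ 2 ≤ 2 * q * m ^ 2) :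
    g ^ 2 * Real.log (g ^ 2 / m ^ 2) - g ^ 2 + m ^ 2 ≤
      12 * (1 + Real.log q) * (g - m) ^ 2 := by
  have hm2 : 0 < m ^ 2 := by positivity
  have hlq : 0 ≤ Real.log q := Real.log_nonneg hq
  rcases eq_or_ne g 0 with rfl | hg0
  · simp only [ne_eq, OfNat.ofNat_ne_zero, not_false_eq_true, zero_pow, zero_mul, zero_sub,
      neg_zero, zero_add, even_two, Even.neg_pow]
    nlinarith
  have hg2 : 0 < g ^ 2 := by positivity
  by_cases hc : g ^ 2 ≤ 4 * m ^ 2
  · have h1 : Real.log (g ^ 2 / m ^ 2) ≤ g ^ 2 / m ^ 2 - 1 :=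
      Real.log_le_sub_one_of_pos (by positivity)
    have h2 : g ^ 2 * Real.log (g ^ 2 / m ^ 2) ≤ g ^ 2 * (g ^ 2 / m ^ 2 - 1) :=
      mul_le_mul_of_nonneg_left h1 hg2.le
    have h3 : g ^ 2 * (g ^ 2 / m ^ 2 - 1) - g ^ 2 + m ^ 2 = (g - m) ^ 2 * (g + m) ^ 2 / m ^ 2 := by
      field_simp
      ring
    have h4 : (g + m) ^ 2 ≤ 9 * m ^ 2 + m ^ 2 := by nlinarith [sq_nonneg (g - m)]
    have h5 : (g - m) ^ 2 * (g + m) ^ 2 / m ^ 2 ≤ 10 * (g - m) ^ 2 := by
      rw [div_le_iff₀ hm2]
      nlinarith [sq_nonneg (g - m)]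
    have h6 : 0 ≤ Real.log q * (g - m) ^ 2 := by positivity
    nlinarith [sq_nonneg (g - m)]
  · push Not at hc
    have h1 : Real.log (g ^ 2 / m ^ 2) ≤ Real.log (2 * q) := by
      apply Real.log_le_log (by positivity)
      rw [div_le_iff₀ hm2]
      exact hg
    have h2 : Real.log (2 * q) = Real.log 2 + Real.log q := Real.log_mul two_ne_zero (by positivity)
    have h3 : Real.log 2 ≤ 1 := by have := Real.log_two_lt_d9; linarith
    have h0 : 0 ≤ Real.log 2 := Real.log_nonneg (by norm_num)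
    have h4 : g ^ 2 ≤ 4 * (g - m) ^ 2 := by
      have : |g| ≤ 2 * |g - m| := by
        have h5 : 2 * |m| ≤ |g| := by
          have := abs_le_abs (le_refl (0 : ℝ))
          have h6 : (2 * |m|) ^ 2 ≤ |g| ^ 2 := by
            rw [mul_pow, sq_abs, sq_abs]; linarith
          exact (abs_le_of_sq_le_sq' h6 (abs_nonneg g)).2
        have h7 : |g| ≤ |g - m| + |m| := by
          have := abs_add_le (g - m) m
          simpa using this
        linarith
      have h8 : |g| ^ 2 ≤ (2 * |g - m|) ^ 2 := by gcongr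
      rw [mul_pow, sq_abs, sq_abs] at h8
      linarith
    have h5 : g ^ 2 * Real.log (g ^ 2 / m ^ 2) ≤ g ^ 2 * (1 + Real.log q) := by
      apply mul_le_mul_of_nonneg_left _ hg2.le
      linarith
    have h6 : g ^ 2 * (1 + Real.log q) ≤ 4 * (g - m) ^ 2 * (1 + Real.log q) :=
      mul_le_mul_of_nonneg_right h4 (by linarith)
    have h7 : 0 ≤ (g - m) ^ 2 * (1 + Real.log q) := by positivity
    nlinarith

/-- Logarithmic Sobolev type inequality on a finite space with atoms at least `p₀`. -/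
theorem ent_one {A : Type*} [Fintype A] (w g : A → ℝ) (p₀ : ℝ) (hp : 0 < p₀)
    (hw : ∀ a, p₀ ≤ w a) (h1 : ∑ a, w a = 1) :
    ∑ a, w a * (g a ^ 2 * Real.log (g a ^ 2 / ∑ b, w b * g b ^ 2)) ≤
      12 * (1 + Real.log (1 / p₀)) * ∑ a, w a * (g a - ∑ b, w b * g b) ^ 2 := by
  set m := ∑ b, w b * g b with hm
  set M := ∑ b, w b * g b ^ 2 with hM
  have hwp : ∀ a, 0 < w a := fun a => hp.trans_le (hw a)
  have hne : Nonempty A := by
    by_contra hne
    rw [not_nonempty_iff] at hne
    simp at h1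
  have hp1 : p₀ ≤ 1 := by
    obtain ⟨a⟩ := hne
    calc p₀ ≤ w a := hw a
      _ ≤ ∑ a, w a := Finset.single_le_sum (fun b _ => (hwp b).le) (Finset.mem_univ a)
      _ = 1 := h1
  have hq : 1 ≤ 1 / p₀ := by rw [le_div_iff₀ hp]; linarith
  have hlq : 0 ≤ Real.log (1 / p₀) := Real.log_nonneg hq
  have hV : ∑ a, w a * (g a - m) ^ 2 = M - m ^ 2 := by
    have : ∀ a, w a * (g a - m) ^ 2 = w a * g a ^ 2 - 2 * m * (w a * g a) + m ^ 2 * w a := by
      intro a; ring
    simp_rw [this]
    rw [Finset.sum_add_distrib, Finset.sum_sub_distrib, ← Finset.mul_sum, ← Finset.mul_sum, h1,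
      ← hm, ← hM]
    ring
  have hV0 : 0 ≤ M - m ^ 2 := by
    rw [← hV]
    exact Finset.sum_nonneg fun a _ => mul_nonneg (hwp a).le (sq_nonneg _)
  have hM0 : 0 ≤ M := Finset.sum_nonneg fun a _ => mul_nonneg (hwp a).le (sq_nonneg _)
  have hgM : ∀ a, g a ^ 2 ≤ 1 / p₀ * M := by
    intro a
    have h2 : w a * g a ^ 2 ≤ M :=
      Finset.single_le_sum (f := fun b => w b * g b ^ 2)
        (fun b _ => mul_nonneg (hwp b).le (sq_nonneg _)) (Finset.mem_univ a)
    have h3 : p₀ * g a ^ 2 ≤ M := le_trans (mul_le_mul_of_nonneg_right (hw a) (sq_nonneg _)) h2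
    rw [div_mul_eq_mul_div, one_mul, le_div_iff₀ hp]
    linarith
  rw [hV]
  rcases eq_or_lt_of_le hM0 with hM00 | hMp
  · have hz : ∀ a, g a ^ 2 = 0 := by
      intro a
      have h2 := hgM a
      rw [← hM00, mul_zero] at h2
      exact le_antisymm h2 (sq_nonneg _)
    have : ∑ a, w a * (g a ^ 2 * Real.log (g a ^ 2 / M)) = 0 :=
      Finset.sum_eq_zero fun a _ => by rw [hz a]; ring
    rw [this]
    positivity
  by_cases hc : M ≤ 2 * (M - m ^ 2)
  · have h2 : ∑ a, w a * (g a ^ 2 * Real.log (g a ^ 2 / M)) ≤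
        ∑ a, (w a * g a ^ 2) * Real.log (1 / p₀) := by
      apply Finset.sum_le_sum
      intro a _
      rw [← mul_assoc]
      rcases eq_or_ne (g a) 0 with h0 | h0
      · rw [h0]; simp
      apply mul_le_mul_of_nonneg_left _ (mul_nonneg (hwp a).le (sq_nonneg _))
      apply Real.log_le_log (by positivity)
      rw [div_le_iff₀ hMp]
      exact hgM a
    rw [← Finset.sum_mul, ← hM] at h2
    nlinarith
  · push Not at hc
    have hm0 : m ≠ 0 := by
      rintro h0
      rw [h0] at hc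
      nlinarith
    have hm2 : 0 < m ^ 2 := by positivity
    have h2 : ∀ a, w a * (g a ^ 2 * Real.log (g a ^ 2 / M)) =
        w a * (g a ^ 2 * Real.log (g a ^ 2 / m ^ 2) - g a ^ 2 + m ^ 2) +
        (w a * g a ^ 2) * (1 - Real.log (M / m ^ 2)) - m ^ 2 * w a := by
      intro a
      rcases eq_or_ne (g a) 0 with h0 | h0
      · rw [h0]; simp; ring
      · rw [Real.log_div (by positivity) hMp.ne', Real.log_div (by positivity) hm2.ne',
          Real.log_div hMp.ne' hm2.ne']
        ring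
    simp_rw [h2]
    rw [Finset.sum_sub_distrib, Finset.sum_add_distrib, ← Finset.sum_mul, ← Finset.mul_sum, h1,
      ← hM]
    have h3 : M * (1 - Real.log (M / m ^ 2)) ≤ m ^ 2 := by
      have h4 : Real.log (m ^ 2 / M) ≤ m ^ 2 / M - 1 :=
        Real.log_le_sub_one_of_pos (by positivity)
      have h5 : Real.log (m ^ 2 / M) = - Real.log (M / m ^ 2) := by
        rw [← Real.log_inv, inv_div]
      have h6 : M * Real.log (m ^ 2 / M) ≤ M * (m ^ 2 / M - 1) :=
        mul_le_mul_of_nonneg_left h4 hM0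
      rw [h5] at h6
      have h7 : M * (m ^ 2 / M - 1) = m ^ 2 - M := by field_simp
      linarith
    have h8 : ∑ a, w a * (g a ^ 2 * Real.log (g a ^ 2 / m ^ 2) - g a ^ 2 + m ^ 2) ≤
        ∑ a, 12 * (1 + Real.log (1 / p₀)) * (w a * (g a - m) ^ 2) := by
      apply Finset.sum_le_sum
      intro a _
      have h9 := theta_le (g := g a) hm0 hq (by
        have := hgM a
        have h10 : 1 / p₀ * M ≤ 1 / p₀ * (2 * m ^ 2) := by
          apply mul_le_mul_of_nonneg_left _ (by positivity)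
          linarith
        linarith)
      calc _ ≤ w a * (12 * (1 + Real.log (1 / p₀)) * (g a - m) ^ 2) :=
            mul_le_mul_of_nonneg_left h9 (hwp a).le
        _ = _ := by ring
    rw [← Finset.mul_sum, hV] at h8
    linarith

end Pool.Agent.W912.LP
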