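import Pool.Agent.W533.LP.Stm2
import Pool.Agent.W912.LP.FS1

/-!
# Falik-Samorodnitsky inequality on finite products (LP-G6)
-/

namespace Pool.Agent.W912.LP

open Pool.Agent.W533.LP

variable {ι A : Type} [Fintype ι] [Fintype A] [DecidableEq ι]

/-- Average over the coordinate `i`. -/
noncomputable def av (w : A → ℝ) (i : ι) (f : (ι → A) → ℝ) : (ι → A) → ℝ :=
  fun x => ∑ a, w a * f (Function.update x i a)

omit [Fintype ι] in
/-- Invariance under changes of coordinate `i`. -/
def inv (i : ι) (g : (ι → A) → ℝ) : Prop := ∀ x a, g (Function.update x i a) = g x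

theorem fD_eq (w : A → ℝ) (f : (ι → A) → ℝ) (i : ι) :
    fD w f i = fun x => f x - av w i f x := rfl

omit [Fintype ι] in
theorem av_sub (w : A → ℝ) (i : ι) (f g : (ι → A) → ℝ) :
    av w i (fun x => f x - g x) = fun x => av w i f x - av w i g x := by
  funext x
  simp only [av, mul_sub, Finset.sum_sub_distrib]

omit [Fintype ι] in
theorem av_comm (w : A → ℝ) (i j : ι) (f : (ι → A) → ℝ) :
    av w i (av w j f) = av w j (av w i f) := by
  rcases eq_or_ne i j with rfl | h
  · rfl
  funext x
  simp only [av, Finset.mul_sum]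
  rw [Finset.sum_comm]
  refine Finset.sum_congr rfl fun a _ => Finset.sum_congr rfl fun b _ => ?_
  rw [Function.update_comm h]
  ring

omit [Fintype ι] in
theorem av_inv_self (w : A → ℝ) (i : ι) (f : (ι → A) → ℝ) : inv i (av w i f) := by
  intro x a
  simp only [av, Function.update_idem]

omit [Fintype ι] in
theorem av_inv (w : A → ℝ) (i k : ι) (f : (ι → A) → ℝ) (hf : inv k f) : inv k (av w i f) := by
  rcases eq_or_ne k i with rfl | h
  · exact av_inv_self w k f
  intro x a
  simp only [av]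
  refine Finset.sum_congr rfl fun b _ => ?_
  rw [Function.update_comm h, hf]

omit [Fintype ι] in
theorem av_mul (w : A → ℝ) (i : ι) (f g : (ι → A) → ℝ) (hg : inv i g) :
    av w i (fun x => f x * g x) = fun x => av w i f x * g x := by
  funext x
  simp only [av, Finset.sum_mul]
  refine Finset.sum_congr rfl fun a _ => ?_
  rw [hg x a]; ring

omit [Fintype ι] in
theorem av_of_inv (w : A → ℝ) (h1 : ∑ a, w a = 1) (i : ι) (g : (ι → A) → ℝ) (hg : inv i g) :
    av w i g = g := by
  funext x
  simp only [av]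
  simp_rw [hg x, ← Finset.sum_mul, h1, one_mul]

/-- Change of variables. -/
theorem fE_av (w : A → ℝ) (h1 : ∑ a, w a = 1) (i : ι) (f : (ι → A) → ℝ) :
    fE w (av w i f) = fE w f := by
  have hI : Function.Involutive
      (fun p : (ι → A) × A => ((Function.update p.1 i p.2, p.1 i) : (ι → A) × A)) := by
    intro p
    ext k
    · simp
    · simp
  have hW : ∀ (x : ι → A) (a : A),
      (∏ k, w (x k)) * w a = (∏ k, w (Function.update x i a k)) * w (x i) := by
    intro x a
    rw [← Finset.mul_prod_erase Finset.univ (fun k => w (x k)) (Finset.mem_univ i),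
      ← Finset.mul_prod_erase Finset.univ (fun k => w (Function.update x i a k))
        (Finset.mem_univ i)]
    have : ∏ k ∈ Finset.univ.erase i, w (Function.update x i a k) =
        ∏ k ∈ Finset.univ.erase i, w (x k) := by
      refine Finset.prod_congr rfl fun k hk => ?_
      rw [Function.update_of_ne (Finset.ne_of_mem_erase hk)]
    rw [this, Function.update_self]
    ring
  have e := Equiv.sum_comp (Function.Involutive.toPerm _ hI)
    (fun p : (ι → A) × A => (∏ k, w (p.1 k)) * w p.2 * f p.1)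
  simp only [Function.Involutive.coe_toPerm] at e
  rw [Fintype.sum_prod_type, Fintype.sum_prod_type] at e
  have e1 : fE w (av w i f) = ∑ x : ι → A, ∑ a : A,
      (∏ k, w (Function.update x i a k)) * w (x i) * f (Function.update x i a) := by
    simp only [fE, av, Finset.mul_sum]
    refine Finset.sum_congr rfl fun x _ => Finset.sum_congr rfl fun a _ => ?_
    rw [← hW]; ring
  have e2 : fE w f = ∑ x : ι → A, ∑ a : A, (∏ k, w (x k)) * w a * f x := by
    simp only [fE]
    refine Finset.sum_congr rfl fun x _ => ?_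
    rw [← Finset.sum_mul, ← Finset.mul_sum, h1, mul_one]
  rw [e1, e2]
  exact e

theorem fE_sub (w : A → ℝ) (f g : (ι → A) → ℝ) :
    fE w (fun x => f x - g x) = fE w f - fE w g := by
  simp only [fE, mul_sub, Finset.sum_sub_distrib]

theorem fE_add (w : A → ℝ) (f g : (ι → A) → ℝ) :
    fE w (fun x => f x + g x) = fE w f + fE w g := by
  simp only [fE, mul_add, Finset.sum_add_distrib]

theorem fE_smul (w : A → ℝ) (c : ℝ) (f : (ι → A) → ℝ) :
    fE w (fun x => c * f x) = c * fE w f := by
  simp only [fE, Finset.mul_sum]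
  exact Finset.sum_congr rfl fun x _ => by ring

theorem fE_mono (w : A → ℝ) (hw : ∀ a, 0 ≤ w a) (f g : (ι → A) → ℝ) (h : ∀ x, f x ≤ g x) :
    fE w f ≤ fE w g :=
  Finset.sum_le_sum fun x _ =>
    mul_le_mul_of_nonneg_left (h x) (Finset.prod_nonneg fun i _ => hw _)

theorem fE_nonneg (w : A → ℝ) (hw : ∀ a, 0 ≤ w a) (f : (ι → A) → ℝ) (h : ∀ x, 0 ≤ f x) :
    0 ≤ fE w f :=
  Finset.sum_nonneg fun x _ => mul_nonneg (Finset.prod_nonneg fun i _ => hw _) (h x)

theorem fE_const (w : A → ℝ) (h1 : ∑ a, w a = 1) (c : ℝ) :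
    fE w (fun _ : ι → A => c) = c := by
  simp only [fE, ← Finset.sum_mul]
  have : ∏ _i : ι, ∑ a : A, w a = ∑ x : ι → A, ∏ i, w (x i) := by
    rw [Finset.prod_univ_sum, Fintype.piFinset_univ]
  rw [← this, h1, Finset.prod_const_one, one_mul]

/-- Self-adjointness. -/
theorem fE_av_mul (w : A → ℝ) (h1 : ∑ a, w a = 1) (i : ι) (f g : (ι → A) → ℝ) :
    fE w (fun x => av w i f x * g x) = fE w (fun x => f x * av w i g x) := by
  rw [← fE_av w h1 i (fun x => f x * av w i g x), av_mul w i f _ (av_inv_self w i g),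
    ← fE_av w h1 i (fun x => av w i f x * g x)]
  congr 1
  have : (fun x => av w i f x * g x) = fun x => g x * av w i f x := by funext x; ring
  rw [this, av_mul w i g _ (av_inv_self w i f)]
  funext x; ring

/-- Average over the coordinates of a list. -/
noncomputable def pv (w : A → ℝ) : List ι → ((ι → A) → ℝ) → ((ι → A) → ℝ)
  | [], f => f
  | i :: l, f => av w i (pv w l f)

omit [Fintype ι] in
theorem pv_cons (w : A → ℝ) (i : ι) (l : List ι) (f : (ι → A) → ℝ) :
    pv w (i :: l) f = av w i (pv w l f) := rfl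

omit [Fintype ι] in
theorem pv_sub (w : A → ℝ) (l : List ι) (f g : (ι → A) → ℝ) :
    pv w l (fun x => f x - g x) = fun x => pv w l f x - pv w l g x := by
  induction l with
  | nil => rfl
  | cons i l ih => simp only [pv_cons, ih, av_sub]

omit [Fintype ι] in
theorem av_pv (w : A → ℝ) (i : ι) (l : List ι) (f : (ι → A) → ℝ) :
    av w i (pv w l f) = pv w l (av w i f) := by
  induction l with
  | nil => rfl
  | cons k l ih => rw [pv_cons, av_comm, ih, pv_cons]

omit [Fintype ι] in
theorem pv_inv (w : A → ℝ) (l : List ι) (f : (ι → A) → ℝ) (i : ι) (hi : i ∈ l) :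
    inv i (pv w l f) := by
  induction l with
  | nil => simp at hi
  | cons k l ih =>
    rcases List.mem_cons.1 hi with rfl | h
    · exact av_inv_self w i _
    · exact av_inv w k i _ (ih h)

omit [Fintype ι] in
theorem pv_mul (w : A → ℝ) (l : List ι) (f g : (ι → A) → ℝ) (hg : ∀ i ∈ l, inv i g) :
    pv w l (fun x => f x * g x) = fun x => pv w l f x * g x := by
  induction l with
  | nil => rfl
  | cons k l ih =>
    rw [pv_cons, ih fun i hi => hg i (List.mem_cons_of_mem _ hi),
      av_mul w k _ g (hg k List.mem_cons_self), pv_cons]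

theorem fE_pv (w : A → ℝ) (h1 : ∑ a, w a = 1) (l : List ι) (f : (ι → A) → ℝ) :
    fE w (pv w l f) = fE w f := by
  induction l with
  | nil => rfl
  | cons k l ih => rw [pv_cons, fE_av w h1, ih]

omit [Fintype ι] in
theorem av_nonneg (w : A → ℝ) (hw : ∀ a, 0 ≤ w a) (i : ι) (f : (ι → A) → ℝ)
    (hf : ∀ x, 0 ≤ f x) (x : ι → A) : 0 ≤ av w i f x :=
  Finset.sum_nonneg fun a _ => mul_nonneg (hw a) (hf _)

omit [Fintype ι] in
theorem pv_nonneg (w : A → ℝ) (hw : ∀ a, 0 ≤ w a) (l : List ι) (f : (ι → A) → ℝ)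
    (hf : ∀ x, 0 ≤ f x) (x : ι → A) : 0 ≤ pv w l f x := by
  induction l generalizing x with
  | nil => exact hf x
  | cons k l ih => exact av_nonneg w hw k _ ih x

omit [Fintype ι] in
theorem pv_abs (w : A → ℝ) (hw : ∀ a, 0 ≤ w a) (l : List ι) (f : (ι → A) → ℝ) (x : ι → A) :
    |pv w l f x| ≤ pv w l (fun y => |f y|) x := by
  induction l generalizing x with
  | nil => exact le_rfl
  | cons k l ih =>
    rw [pv_cons, pv_cons]
    simp only [av]
    refine (Finset.abs_sum_le_sum_abs _ _).trans (Finset.sum_le_sum fun a _ => ?_)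
    rw [abs_mul, abs_of_nonneg (hw a)]
    exact mul_le_mul_of_nonneg_left (ih _) (hw a)

omit [Fintype ι] in
theorem av_zero (w : A → ℝ) (hw : ∀ a, 0 < w a) (i : ι) (f : (ι → A) → ℝ)
    (hf : ∀ x, 0 ≤ f x) (x : ι → A) (h : av w i f x = 0) : f x = 0 := by
  have h2 := (Finset.sum_eq_zero_iff_of_nonneg
    (fun a _ => mul_nonneg (hw a).le (hf _))).1 h (x i) (Finset.mem_univ _)
  rw [Function.update_eq_self] at h2
  exact (mul_eq_zero.1 h2).resolve_left (hw _).ne'

omit [Fintype ι] in
theorem pv_zero (w : A → ℝ) (hw : ∀ a, 0 < w a) (l : List ι) (f : (ι → A) → ℝ)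
    (hf : ∀ x, 0 ≤ f x) (x : ι → A) (h : pv w l f x = 0) : f x = 0 := by
  induction l generalizing x with
  | nil => exact h
  | cons k l ih =>
    exact ih x (av_zero w hw k _ (pv_nonneg w (fun a => (hw a).le) l f hf) x h)

/-! ### martingale differences -/

/-- Sum of a functional over the martingale differences. -/
noncomputable def sv (w : A → ℝ) (Φ : ((ι → A) → ℝ) → ℝ) (f : (ι → A) → ℝ) : List ι → ℝ
  | [] => 0
  | i :: l => Φ (pv w l (fD w f i)) + sv w Φ f l

/-- Variance decomposition. -/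
theorem sv_sq (w : A → ℝ) (h1 : ∑ a, w a = 1) (f : (ι → A) → ℝ) (L : List ι) :
    sv w (fun V => fE w (fun x => V x ^ 2)) f L = fE w (fun x => (f x - pv w L f x) ^ 2) := by
  induction L with
  | nil => simp [sv, pv, fE]
  | cons i l ih =>
    simp only [sv, ih]
    have e1 : ∀ x, (f x - pv w (i :: l) f x) ^ 2 =
        (pv w l (fD w f i) x ^ 2 + (f x - pv w l f x) ^ 2) +
          2 * ((f x - pv w l f x) * pv w l (fD w f i) x) := by
      intro x
      rw [fD_eq, pv_sub, ← av_pv, pv_cons]
      ring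
    simp_rw [e1]
    rw [fE_add, fE_add, fE_smul]
    have e2 : fE w (fun x => (f x - pv w l f x) * pv w l (fD w f i) x) = 0 := by
      rw [← fE_pv w h1 l, pv_mul w l _ _ (fun k hk => pv_inv w l _ k hk), pv_sub]
      have e3 : pv w l (pv w l f) = pv w l f := by
        have := pv_mul w l (fun _ => 1) (pv w l f) (fun k hk => pv_inv w l _ k hk)
        have e4 : pv w l (fun _ => (1 : ℝ)) = fun _ => 1 := by
          clear * - h1
          induction l with
          | nil => rfl
          | cons k l ih =>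
            rw [pv_cons, ih]
            exact av_of_inv w h1 k _ (fun _ _ => rfl)
        simp only [one_mul, e4] at this
        exact this
      rw [e3]
      simp [fE]
    rw [e2]
    ring

theorem fD_pv (w : A → ℝ) (k : ι) (l : List ι) (f : (ι → A) → ℝ) :
    fD w (pv w l f) k = pv w l (fD w f k) := by
  rw [fD_eq, fD_eq, pv_sub, av_pv]

theorem fD_comm (w : A → ℝ) (i k : ι) (f : (ι → A) → ℝ) :
    fD w (fD w f i) k = fD w (fD w f k) i := by
  simp only [fD_eq, av_sub]
  funext x
  rw [av_comm w k i]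
  ring

theorem sv_D (w : A → ℝ) (Φ : ((ι → A) → ℝ) → ℝ) (k : ι) (f : (ι → A) → ℝ) (L : List ι) :
    sv w (fun V => Φ (fD w V k)) f L = sv w Φ (fD w f k) L := by
  induction L with
  | nil => rfl
  | cons i l ih => simp only [sv, ih, fD_pv, fD_comm w i k]

theorem sv_mono (w : A → ℝ) (Φ Ψ : ((ι → A) → ℝ) → ℝ) (h : ∀ V, Φ V ≤ Ψ V)
    (f : (ι → A) → ℝ) (L : List ι) : sv w Φ f L ≤ sv w Ψ f L := by
  induction L with
  | nil => exact le_rfl
  | cons i l ih => exact add_le_add (h _) ih

theorem sv_sum (w : A → ℝ) {κ : Type*} (s : Finset κ) (Φ : κ → ((ι → A) → ℝ) → ℝ)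
    (f : (ι → A) → ℝ) (L : List ι) :
    sv w (fun V => ∑ k ∈ s, Φ k V) f L = ∑ k ∈ s, sv w (Φ k) f L := by
  induction L with
  | nil => simp [sv]
  | cons i l ih => simp only [sv, ih, Finset.sum_add_distrib]

theorem sv_smul (w : A → ℝ) (c : ℝ) (Φ : ((ι → A) → ℝ) → ℝ)
    (f : (ι → A) → ℝ) (L : List ι) :
    sv w (fun V => c * Φ V) f L = c * sv w Φ f L := by
  induction L with
  | nil => simp [sv]
  | cons i l ih => simp only [sv, ih, mul_add]

theorem sv_nonneg (w : A → ℝ) (Φ : ((ι → A) → ℝ) → ℝ) (h : ∀ V, 0 ≤ Φ V)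
    (f : (ι → A) → ℝ) (L : List ι) : 0 ≤ sv w Φ f L := by
  induction L with
  | nil => exact le_rfl
  | cons i l ih => exact add_nonneg (h _) ih

/-- Log-sum inequality over the martingale differences. -/
theorem sv_logsum (w : A → ℝ) (Φ Ψ : ((ι → A) → ℝ) → ℝ) (h : ∀ V, 0 ≤ Φ V) (h' : ∀ V, 0 ≤ Ψ V)
    (h0 : ∀ V, Ψ V = 0 → Φ V = 0) (f : (ι → A) → ℝ) (L : List ι) :
    (sv w Ψ f L = 0 → sv w Φ f L = 0) ∧
    sv w Φ f L * Real.log (sv w Φ f L / sv w Ψ f L) ≤
      sv w (fun V => Φ V * Real.log (Φ V / Ψ V)) f L := by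
  induction L with
  | nil => simp [sv]
  | cons i l ih =>
    simp only [sv]
    constructor
    · intro h2
      have h3 : Ψ (pv w l (fD w f i)) = 0 := by
        linarith [h' (pv w l (fD w f i)), sv_nonneg w Ψ h' f l]
      have h4 : sv w Ψ f l = 0 := by
        linarith [h' (pv w l (fD w f i)), sv_nonneg w Ψ h' f l]
      rw [h0 _ h3, ih.1 h4, add_zero]
    · exact (logsum2 (h _) (h' _) (h0 _) (sv_nonneg w Φ h f l) (sv_nonneg w Ψ h' f l) ih.1).trans
        (add_le_add le_rfl ih.2)

/-! ### entropy -/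

/-- Entropy in one direction. -/
noncomputable def J (w : A → ℝ) (i : ι) (F : (ι → A) → ℝ) : ℝ :=
  fE w (fun x => F x * Real.log (F x / av w i F x))

/-- Entropy in the directions of a list. -/
noncomputable def ent (w : A → ℝ) (l : List ι) (F : (ι → A) → ℝ) : ℝ :=
  fE w (fun x => F x * Real.log (F x / pv w l F x))

theorem ent_cons (w : A → ℝ) (hw : ∀ a, 0 < w a) (h1 : ∑ a, w a = 1) (i : ι) (l : List ι)
    (F : (ι → A) → ℝ) (hF : ∀ x, 0 ≤ F x) :
    ent w (i :: l) F = ent w l F + J w i (pv w l F) := by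
  have hw0 : ∀ a, 0 ≤ w a := fun a => (hw a).le
  have e1 : ∀ x, F x * Real.log (F x / pv w (i :: l) F x) =
      F x * Real.log (F x / pv w l F x) +
        F x * Real.log (pv w l F x / av w i (pv w l F) x) := by
    intro x
    rcases eq_or_ne (F x) 0 with h | h
    · rw [h]; ring
    · have h2 : pv w l F x ≠ 0 := fun h3 => h (pv_zero w hw l F hF x h3)
      have h3 : av w i (pv w l F) x ≠ 0 := fun h4 => h2
        (av_zero w hw i _ (pv_nonneg w hw0 l F hF) x h4)
      rw [pv_cons, Real.log_div h h3, Real.log_div h h2, Real.log_div h2 h3]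
      ring
  unfold ent J
  simp_rw [e1]
  rw [fE_add]
  congr 1
  rw [← fE_pv w h1 l, pv_mul]
  intro k hk x a
  show Real.log _ = Real.log _
  rw [pv_inv w l F k hk x a, av_inv w i k _ (pv_inv w l F k hk) x a]

theorem J_av (w : A → ℝ) (hw : ∀ a, 0 < w a) (h1 : ∑ a, w a = 1) (i k : ι)
    (F : (ι → A) → ℝ) (hF : ∀ x, 0 ≤ F x) : J w i (av w k F) ≤ J w i F := by
  have hw0 : ∀ a, 0 ≤ w a := fun a => (hw a).le
  unfold J
  rw [← fE_av w h1 k (fun x => F x * Real.log (F x / av w i F x))]
  apply fE_mono w hw0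
  intro x
  rw [av_comm]
  have := logsum (Finset.univ : Finset A) (fun b => w b * F (Function.update x k b))
    (fun b => w b * av w i F (Function.update x k b))
    (fun b _ => mul_nonneg (hw0 b) (hF _))
    (fun b _ => mul_nonneg (hw0 b) (av_nonneg w hw0 i F hF _))
    (fun b _ h => by
      have h2 := (mul_eq_zero.1 h).resolve_left (hw b).ne'
      rw [av_zero w hw i F hF _ h2, mul_zero])
  refine this.trans (le_of_eq (Finset.sum_congr rfl fun b _ => ?_))
  rw [mul_div_mul_left _ _ (hw b).ne']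
  ring

theorem J_pv (w : A → ℝ) (hw : ∀ a, 0 < w a) (h1 : ∑ a, w a = 1) (i : ι) (l : List ι)
    (F : (ι → A) → ℝ) (hF : ∀ x, 0 ≤ F x) : J w i (pv w l F) ≤ J w i F := by
  induction l with
  | nil => exact le_rfl
  | cons k l ih =>
    exact (J_av w hw h1 i k _ (pv_nonneg w (fun a => (hw a).le) l F hF)).trans ih

/-- Tensorisation. -/
theorem ent_le (w : A → ℝ) (hw : ∀ a, 0 < w a) (h1 : ∑ a, w a = 1) (L : List ι)
    (F : (ι → A) → ℝ) (hF : ∀ x, 0 ≤ F x) :
    ent w L F ≤ (L.map fun i => J w i F).sum := by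
  induction L with
  | nil =>
    simp only [List.map_nil, List.sum_nil, ent, pv]
    refine le_of_eq ?_
    have : ∀ x, F x * Real.log (F x / F x) = 0 := by
      intro x
      rcases eq_or_ne (F x) 0 with h | h
      · rw [h]; ring
      · rw [div_self h, Real.log_one, mul_zero]
    simp [this, fE]
  | cons i l ih =>
    rw [ent_cons w hw h1 i l F hF, List.map_cons, List.sum_cons]
    have := J_pv w hw h1 i l F hF
    linarith

theorem J_sq_le (w : A → ℝ) (p₀ : ℝ) (hp : 0 < p₀) (hw : ∀ a, p₀ ≤ w a) (h1 : ∑ a, w a = 1)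
    (i : ι) (V : (ι → A) → ℝ) :
    J w i (fun x => V x ^ 2) ≤
      12 * (1 + Real.log (1 / p₀)) * fE w (fun x => (fD w V i x) ^ 2) := by
  have hw0 : ∀ a, 0 ≤ w a := fun a => hp.le.trans (hw a)
  unfold J
  rw [← fE_av w h1 i, ← fE_av w h1 i (fun x => (fD w V i x) ^ 2), ← fE_smul]
  apply fE_mono w hw0
  intro x
  have h2 := ent_one w (fun a => V (Function.update x i a)) p₀ hp hw h1
  have e1 : av w i (fun x => V x ^ 2 * Real.log (V x ^ 2 / av w i (fun x => V x ^ 2) x)) x =
      ∑ a, w a * (V (Function.update x i a) ^ 2 * Real.log (V (Function.update x i a) ^ 2 /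
        ∑ b, w b * V (Function.update x i b) ^ 2)) := by
    simp only [av, Function.update_idem]
  have e2 : av w i (fun x => fD w V i x ^ 2) x =
      ∑ a, w a * (V (Function.update x i a) - ∑ b, w b * V (Function.update x i b)) ^ 2 := by
    simp only [av, fD, Function.update_idem]
  rw [e1, e2]
  exact h2

omit [Fintype A] in
theorem inv_const (g : (ι → A) → ℝ) (hg : ∀ i, inv i g) (x y : ι → A) : g x = g y := by
  have h : ∀ s : Finset ι, g (s.piecewise y x) = g x := by
    intro s
    induction s using Finset.induction_on with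
    | empty => rw [Finset.piecewise_empty]
    | insert j s hj ih => rw [Finset.piecewise_insert, hg j, ih]
  have := h Finset.univ
  rw [Finset.piecewise_univ] at this
  exact this.symm

theorem pv_univ (w : A → ℝ) (h1 : ∑ a, w a = 1) (f : (ι → A) → ℝ) :
    pv w (Finset.univ : Finset ι).toList f = fun _ => fE w f := by
  funext x
  have h2 : ∀ y, pv w (Finset.univ : Finset ι).toList f y =
      pv w (Finset.univ : Finset ι).toList f x := fun y =>
    inv_const _ (fun i => pv_inv w _ f i (Finset.mem_toList.2 (Finset.mem_univ i))) y x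
  have h3 := fE_pv w h1 (Finset.univ : Finset ι).toList f
  rw [← h3]
  have h4 : pv w (Finset.univ : Finset ι).toList f =
      fun _ => pv w (Finset.univ : Finset ι).toList f x := funext h2
  conv_rhs => rw [h4]
  rw [fE_const w h1]

/-- Jensen for the entropy of a square. -/
theorem ent_ge (w : A → ℝ) (hw : ∀ a, 0 < w a) (g : (ι → A) → ℝ) :
    fE w (fun x => g x ^ 2) * Real.log (fE w (fun x => g x ^ 2) / (fE w (fun x => |g x|)) ^ 2) ≤
      fE w (fun x => g x ^ 2 * Real.log (g x ^ 2 / fE w (fun x => g x ^ 2))) := by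
  have hw0 : ∀ a, 0 ≤ w a := fun a => (hw a).le
  have hW : ∀ x : ι → A, 0 < ∏ i, w (x i) := fun x => Finset.prod_pos fun i _ => hw _
  set M := fE w (fun x => g x ^ 2) with hM
  set m := fE w (fun x => |g x|) with hm
  have hM0 : 0 ≤ M := fE_nonneg w hw0 _ fun x => sq_nonneg _
  have hm0 : 0 ≤ m := fE_nonneg w hw0 _ fun x => abs_nonneg _
  rcases eq_or_lt_of_le hM0 with h | h
  · rw [← h, zero_mul]
    have h2 := (Finset.sum_eq_zero_iff_of_nonneg
      (fun x _ => mul_nonneg (hW x).le (sq_nonneg (g x)))).1 h.symm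
    have h3 : ∀ x, g x ^ 2 = 0 := fun x =>
      (mul_eq_zero.1 (h2 x (Finset.mem_univ x))).resolve_left (hW x).ne'
    simp [fE, h3]
  · have hmp : 0 < m := by
      rcases eq_or_lt_of_le hm0 with h' | h'
      · exfalso
        have h2 := (Finset.sum_eq_zero_iff_of_nonneg
          (fun x _ => mul_nonneg (hW x).le (abs_nonneg (g x)))).1 h'.symm
        have h3 : ∀ x, g x = 0 := fun x =>
          abs_eq_zero.1 ((mul_eq_zero.1 (h2 x (Finset.mem_univ x))).resolve_left (hW x).ne')
        have : M = 0 := by rw [hM]; simp [fE, h3]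
        exact h.ne' this
      · exact h'
    have key := logsum (Finset.univ : Finset (ι → A)) (fun x => (∏ i, w (x i)) * g x ^ 2)
      (fun x => (∏ i, w (x i)) * |g x|) (fun x _ => mul_nonneg (hW x).le (sq_nonneg _))
      (fun x _ => mul_nonneg (hW x).le (abs_nonneg _))
      (fun x _ h2 => by
        have := abs_eq_zero.1 ((mul_eq_zero.1 h2).resolve_left (hW x).ne')
        rw [this]; ring)
    have e1 : ∑ x : ι → A, (∏ i, w (x i)) * g x ^ 2 = M := rfl
    have e2 : ∑ x : ι → A, (∏ i, w (x i)) * |g x| = m := rfl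
    rw [e1, e2] at key
    have e3 : ∀ x : ι → A, (∏ i, w (x i)) * g x ^ 2 *
        Real.log ((∏ i, w (x i)) * g x ^ 2 / ((∏ i, w (x i)) * |g x|)) =
        (∏ i, w (x i)) * (g x ^ 2 * Real.log |g x|) := by
      intro x
      rw [mul_div_mul_left _ _ (hW x).ne', ← sq_abs, sq, mul_self_div_self]
      ring
    simp_rw [e3] at key
    have e4 : ∀ x, g x ^ 2 * Real.log (g x ^ 2 / M) =
        2 * (g x ^ 2 * Real.log |g x|) - Real.log M * g x ^ 2 := by
      intro x
      rcases eq_or_ne (g x) 0 with h2 | h2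
      · rw [h2]; simp
      · rw [Real.log_div (by positivity) h.ne', ← sq_abs, Real.log_pow]
        push_cast
        ring
    simp_rw [e4]
    rw [fE_sub, fE_smul, fE_smul, ← hM]
    have e5 : M * Real.log (M / m ^ 2) = 2 * (M * Real.log (M / m)) - Real.log M * M := by
      rw [Real.log_div h.ne' (by positivity), Real.log_div h.ne' hmp.ne', Real.log_pow]
      push_cast
      ring
    rw [e5]
    have e6 : fE w (fun x => g x ^ 2 * Real.log |g x|) =
      ∑ x : ι → A, (∏ i, w (x i)) * (g x ^ 2 * Real.log |g x|) := rfl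
    rw [e6]
    linarith

theorem sv_abs (w : A → ℝ) (hw : ∀ a, 0 ≤ w a) (h1 : ∑ a, w a = 1) (f : (ι → A) → ℝ)
    (L : List ι) :
    sv w (fun V => (fE w (fun x => |V x|)) ^ 2) f L ≤
      (L.map fun i => (fE w (fun x => |fD w f i x|)) ^ 2).sum := by
  induction L with
  | nil => simp [sv]
  | cons i l ih =>
    simp only [sv, List.map_cons, List.sum_cons]
    apply add_le_add _ ih
    have h2 : fE w (fun x => |pv w l (fD w f i) x|) ≤ fE w (fun x => |fD w f i x|) := by
      rw [← fE_pv w h1 l (fun x => |fD w f i x|)]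
      exact fE_mono w hw _ _ fun x => pv_abs w hw l _ x
    have h3 : 0 ≤ fE w (fun x => |pv w l (fD w f i) x|) :=
      fE_nonneg w hw _ fun x => abs_nonneg _
    gcongr

/-- The inequality of Falik and Samorodnitsky. -/
theorem fs : FS := by
  refine ⟨12, by norm_num, ?_⟩
  intro ι A _ _ _ w p₀ S f hp hw h1 hS hsum hvar
  have hwp : ∀ a, 0 < w a := fun a => hp.trans_le (hw a)
  have hw0 : ∀ a, 0 ≤ w a := fun a => (hwp a).le
  set L := (Finset.univ : Finset ι).toList with hL
  set Var := fE w (fun x => (f x - fE w f) ^ 2) with hVar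
  have e1 : sv w (fun V => fE w (fun x => V x ^ 2)) f L = Var := by
    rw [sv_sq w h1, hL, pv_univ w h1]
  have e2 := sv_logsum w (fun V => fE w (fun x => V x ^ 2)) (fun V => (fE w (fun x => |V x|)) ^ 2)
    (fun V => fE_nonneg w hw0 _ fun x => sq_nonneg _) (fun V => sq_nonneg _)
    (fun V h => by
      have h2 : fE w (fun x => |V x|) = 0 := by
        rcases pow_eq_zero_iff (n := 2) two_ne_zero |>.1 h with h3
        exact h3
      have hW : ∀ x : ι → A, 0 < ∏ i, w (x i) := fun x => Finset.prod_pos fun i _ => hwp _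
      have h2' := (Finset.sum_eq_zero_iff_of_nonneg
        (fun x _ => mul_nonneg (hW x).le (abs_nonneg (V x)))).1 h2
      have h3 : ∀ x, V x = 0 := fun x =>
        abs_eq_zero.1 ((mul_eq_zero.1 (h2' x (Finset.mem_univ x))).resolve_left (hW x).ne')
      simp [fE, h3]) f L
  rw [e1] at e2
  set B := sv w (fun V => (fE w (fun x => |V x|)) ^ 2) f L with hB
  have hB0 : 0 ≤ B := sv_nonneg w _ (fun V => sq_nonneg _) f L
  have hBp : 0 < B := by
    rcases eq_or_lt_of_le hB0 with h | h
    · exact absurd (e2.1 h.symm) hvar.ne'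
    · exact h
  have hBS : B ≤ S := by
    refine (sv_abs w hw0 h1 f L).trans ?_
    rw [hL, Finset.sum_map_toList]
    exact hsum
  have h3 : Var * Real.log (Var / S) ≤ Var * Real.log (Var / B) := by
    apply mul_le_mul_of_nonneg_left _ hvar.le
    apply Real.log_le_log (by positivity)
    gcongr
  refine h3.trans (e2.2.trans ?_)
  have h4 : sv w (fun V => fE w (fun x => V x ^ 2) *
      Real.log (fE w (fun x => V x ^ 2) / (fE w (fun x => |V x|)) ^ 2)) f L ≤
      sv w (fun V => ∑ i, (12 * (1 + Real.log (1 / p₀))) *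
        fE w (fun x => (fD w V i x) ^ 2)) f L := by
    apply sv_mono
    intro V
    refine (ent_ge w hwp V).trans ?_
    have h5 := ent_le w hwp h1 L (fun x => V x ^ 2) (fun x => sq_nonneg _)
    rw [hL, Finset.sum_map_toList] at h5
    unfold ent at h5
    rw [pv_univ w h1] at h5
    exact h5.trans (Finset.sum_le_sum fun i _ => J_sq_le w p₀ hp hw h1 i V)
  refine h4.trans ?_
  rw [sv_sum, Finset.mul_sum]
  apply Finset.sum_le_sum
  intro i _
  rw [sv_smul, sv_D w (fun V => fE w (fun x => V x ^ 2)) i f L, sv_sq w h1, hL, pv_univ w h1]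
  have h6 : fE w (fD w f i) = 0 := by
    rw [fD_eq, fE_sub, fE_av w h1, sub_self]
  rw [h6]
  simp only [sub_zero]
  exact le_rfl

end Pool.Agent.W912.LP
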